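import Pool.Agent.D0H11.GO.Stm
import Pool.Agent.D0H8.GM.One

/-!
Module ONE1 of the project GO: the lower bound for one number.
-/

set_option autoImplicit false

namespace Pool.Agent.D0H9.GO

open Finset MeasureTheory Filter
open Pool.Agent.D0H11.GO
open Pool.Agent.H357R2.SI (pc)

theorem t_ONE1 : S_ONE1 := by
  refine ⟨1 / 40, by norm_num, fun c r hr hrc => ?_⟩
  obtain ⟨K, hK⟩ : ∃ K : ℝ, K = c + r := ⟨_, rfl⟩
  have hK0 : 0 < K := by rw [hK]; linarith
  obtain ⟨X₀, hX₀⟩ := Pool.Agent.D0H8.GM.window (r / (2 * K)) ((c - r) / K) (by positivity)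
    (div_pos (by linarith) hK0)
  have e0 : Tendsto (fun M : ℕ => (2 : ℝ) ^ M) atTop atTop :=
    tendsto_pow_atTop_atTop_of_one_lt (by norm_num)
  have e1 : ∀ᶠ M : ℕ in atTop, max X₀ 2 / r ≤ (2 : ℝ) ^ M := e0.eventually_ge_atTop _
  have e2 : ∀ᶠ M : ℕ in atTop, |Real.log K| ≤ (M : ℝ) :=
    tendsto_natCast_atTop_atTop.eventually_ge_atTop _
  filter_upwards [e1, e2, eventually_ge_atTop 1] with M h1 h2 h3 A hA hA2
  have hM : (1 : ℝ) ≤ M := by exact_mod_cast h3
  have hA0 : 0 < A := lt_of_lt_of_le (by positivity) hA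
  have hrA : max X₀ 2 ≤ r * A := by
    have h4 := h1.trans hA
    rw [div_le_iff₀ hr] at h4
    linarith
  have hm0 : X₀ ≤ max X₀ 2 := le_max_left _ _
  have hm1 : 2 ≤ max X₀ 2 := le_max_right _ _
  obtain ⟨x₁, hx₁⟩ : ∃ x : ℝ, x = (c - r) * A + 0 + 1 := ⟨_, rfl⟩
  obtain ⟨x₂, hx₂⟩ : ∃ x : ℝ, x = (c + r) * A + 0 := ⟨_, rfl⟩
  have hxK : x₂ = K * A := by rw [hx₂, hK]; ring
  have hcA : 0 < (c - r) * A := mul_pos (by linarith) hA0
  have hrx : r * A ≤ x₂ := by
    rw [hx₂]
    nlinarith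
  have hxX : X₀ ≤ x₂ := by linarith
  have h12 : (c - r) / K * x₂ ≤ x₁ := by
    rw [hxK, hx₁]
    have : (c - r) / K * (K * A) = (c - r) * A := by field_simp
    linarith
  have h21 : x₁ ≤ x₂ := by rw [hx₁, hx₂]; nlinarith
  have h7 := hX₀ x₁ x₂ hxX h12 h21
  have hlx : 0 < Real.log x₂ := Real.log_pos (by linarith)
  have hlog : Real.log x₂ ≤ 40 * M := by
    calc Real.log x₂ = Real.log K + Real.log A := by rw [hxK, Real.log_mul hK0.ne' hA0.ne']
      _ ≤ M + (40 * M) * 0.7 := by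
          have h8 : Real.log K ≤ M := (le_abs_self _).trans h2
          have h9 : Real.log 2 ≤ 0.7 := by
            have := Real.log_two_lt_d9
            linarith
          have h10 : Real.log A ≤ (40 * M) * Real.log 2 := by
            have h11 := Real.log_le_log hA0 hA2
            rw [Real.log_pow] at h11
            push_cast at h11
            exact h11
          have h11 : (40 * (M : ℝ)) * Real.log 2 ≤ (40 * M) * 0.7 :=
            mul_le_mul_of_nonneg_left h9 (by positivity)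
          linarith
      _ ≤ 40 * M := by linarith
  have hnum : r * A ≤ x₂ - x₁ - r / (2 * K) * x₂ := by
    have h8 : r / (2 * K) * x₂ = r * A / 2 := by rw [hxK]; field_simp
    have h10 : x₂ - x₁ = 2 * (r * A) - 1 := by rw [hx₁, hx₂]; ring
    linarith
  have key : r / (40 * M) ≤ (pc ⌊x₁⌋₊ ⌊x₂⌋₊ : ℝ) / A := by
    rw [le_div_iff₀ hA0]
    calc r / (40 * M) * A = r * A / (40 * M) := by ring
      _ ≤ r * A / Real.log x₂ := div_le_div_of_nonneg_left (by positivity) hlx hlog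
      _ ≤ _ := (div_le_div_of_nonneg_right hnum hlx.le).trans h7
  have h8 := Pool.Agent.D0H8.GM.slice A 0 (c - r) (c + r) hA0
  rw [← hx₁, ← hx₂] at h8
  have h9 : (1 / 40 : ℝ) * r / M = r / (40 * M) := by
    field_simp
  rw [h9]
  refine (ENNReal.ofReal_le_ofReal key).trans (h8.trans (le_of_eq ?_))
  congr 1
  ext α
  simp

end Pool.Agent.D0H9.GO
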