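import Pool.Agent.D0H11.GO.Stm
import Pool.Agent.D0H10.GM.Su

/-!
Module SU1 of the project GO: upper bounds for one number and for two proportional numbers.
-/

set_option autoImplicit false

namespace Pool.Agent.D0H9.GO

open Finset MeasureTheory Filter
open Pool.Agent.D0H11.GO

/-- the substitution `L = α A` -/
theorem subst (A a₁ a₂ : ℝ) (hA : 0 < A) (S : Set ℝ) :
    volume {α : ℝ | α ∈ Set.Icc a₁ a₂ ∧ α * A ∈ S} ≤
      ENNReal.ofReal A⁻¹ * volume {L : ℝ | L ∈ Set.Icc (a₁ * A) (a₂ * A) ∧ L ∈ S} := by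
  have hsub : {α : ℝ | α ∈ Set.Icc a₁ a₂ ∧ α * A ∈ S} ⊆
      (fun x : ℝ => x * A) ⁻¹' {L : ℝ | L ∈ Set.Icc (a₁ * A) (a₂ * A) ∧ L ∈ S} := by
    rintro x ⟨⟨h1, h2⟩, h3⟩
    exact ⟨⟨mul_le_mul_of_nonneg_right h1 hA.le, mul_le_mul_of_nonneg_right h2 hA.le⟩, h3⟩
  refine (measure_mono hsub).trans ?_
  rw [Real.volume_preimage_mul_right hA.ne', abs_of_pos (inv_pos.2 hA)]

theorem t_SU1 (hBT : Pool.Agent.D0H11.GM.S_BTM) : S_SU1 := by
  obtain ⟨C, hC, hB⟩ := hBT
  have hB' : Pool.Agent.D0H10.GM.BT C := hB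
  have hl2 : 0 < Real.log 2 := Real.log_pos one_lt_two
  refine ⟨12 * C ^ 2 / Real.log 2 ^ 2 + 6 * C / Real.log 2, by positivity, ?_⟩
  intro c r hr hrc
  have hM1 : ∀ᶠ M : ℕ in atTop, 3 ≤ r * 2 ^ M := by
    have h1 : Tendsto (fun M : ℕ => r * (2 : ℝ) ^ M) atTop atTop :=
      Tendsto.const_mul_atTop hr (tendsto_pow_atTop_atTop_of_one_lt one_lt_two)
    exact h1.eventually_ge_atTop 3
  have hM2 : ∀ᶠ M : ℕ in atTop, -Real.log (2 * r) ≤ M * (Real.log 2 / 2) := by
    have h1 : Tendsto (fun M : ℕ => (M : ℝ) * (Real.log 2 / 2)) atTop atTop :=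
      Tendsto.atTop_mul_const (by positivity) tendsto_natCast_atTop_atTop
    exact h1.eventually_ge_atTop _
  filter_upwards [hM1, hM2, eventually_ge_atTop 1] with M h1 h2 h3 A hA
  have hM0 : (0 : ℝ) < M := by exact_mod_cast h3
  have hA0 : 0 < A := lt_of_lt_of_le (by positivity) hA
  have hrA : 3 ≤ r * A := h1.trans (mul_le_mul_of_nonneg_left hA hr.le)
  have hlA : (M : ℝ) * Real.log 2 ≤ Real.log A := by
    rw [← Real.log_pow]
    exact Real.log_le_log (by positivity) hA
  have hlog : (M : ℝ) * Real.log 2 / 2 ≤ Real.log (2 * r * A) := by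
    rw [Real.log_mul (by positivity) (by positivity)]
    linarith
  have hMl : 0 < (M : ℝ) * Real.log 2 / 2 := by positivity
  have hB0 : 0 ≤ (c - r) * A := mul_nonneg (by linarith) hA0.le
  have hB1 : (c - r) * A ≤ (c + r) * A := mul_le_mul_of_nonneg_right (by linarith) hA0.le
  have hdif : (c + r) * A - (c - r) * A = 2 * r * A := by ring
  have key3 : C * (2 * r * A + 3) / Real.log (2 * r * A + 4) ≤
      3 * C * (r * A) / (M * Real.log 2 / 2) := by
    apply div_le_div₀ (by positivity)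
    · nlinarith
    · exact hMl
    · exact hlog.trans (Real.log_le_log (by positivity) (by linarith))
  have key1 : C * (2 * r * A + 1) / Real.log (2 * r * A + 2) ≤
      3 * C * (r * A) / (M * Real.log 2 / 2) := by
    apply div_le_div₀ (by positivity)
    · nlinarith
    · exact hMl
    · exact hlog.trans (Real.log_le_log (by positivity) (by linarith))
  refine ⟨?_, ?_⟩
  · intro k hk
    have hk0 : (0 : ℝ) < k := by exact_mod_cast hk
    have hset : {α : ℝ | α ∈ Set.Icc (c - r) (c + r) ∧ (⌊α * A⌋₊ + 1).Prime ∧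
        (⌊α * (2 ^ k * A)⌋₊ + 1).Prime} ⊆
        {α : ℝ | α ∈ Set.Icc (c - r) (c + r) ∧
          α * A ∈ {L : ℝ | (⌊L⌋₊ + 1).Prime ∧ (⌊2 ^ k * L⌋₊ + 1).Prime}} := by
      rintro α ⟨h5, h6, h7⟩
      refine ⟨h5, h6, ?_⟩
      rwa [show 2 ^ k * (α * A) = α * (2 ^ k * A) by ring]
    refine (measure_mono hset).trans ((subst A _ _ hA0 _).trans ?_)
    have h5 := Pool.Agent.D0H10.GM.two hC hB' hk hB0 hB1
    rw [hdif] at h5
    have h6 : ENNReal.ofReal (C * (2 * r * A + 3) / Real.log (2 * r * A + 4)) *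
        ENNReal.ofReal (2 * C / (k * Real.log 2)) ≤
        ENNReal.ofReal (3 * C * (r * A) / (M * Real.log 2 / 2) * (2 * C / (k * Real.log 2))) := by
      rw [← ENNReal.ofReal_mul (by
        apply div_nonneg (by positivity)
        exact Real.log_nonneg (by linarith))]
      apply ENNReal.ofReal_le_ofReal
      exact mul_le_mul_of_nonneg_right key3 (by positivity)
    refine (mul_le_mul_right (h5.trans h6) _).trans ?_
    rw [← ENNReal.ofReal_mul (by positivity)]
    apply ENNReal.ofReal_le_ofReal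
    have e : A⁻¹ * (3 * C * (r * A) / (M * Real.log 2 / 2) * (2 * C / (k * Real.log 2))) =
        (12 * C ^ 2 / Real.log 2 ^ 2) * r / (M * k) := by
      field_simp
      ring
    rw [e]
    apply div_le_div_of_nonneg_right _ (by positivity)
    apply mul_le_mul_of_nonneg_right _ hr.le
    have : 0 < 6 * C / Real.log 2 := by positivity
    linarith
  · have hset : {α : ℝ | α ∈ Set.Icc (c - r) (c + r) ∧ (⌊α * A⌋₊ + 1).Prime} ⊆
        {α : ℝ | α ∈ Set.Icc (c - r) (c + r) ∧ α * A ∈ {L : ℝ | (⌊L⌋₊ + 1).Prime}} :=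
      fun α h => h
    refine (measure_mono hset).trans ((subst A _ _ hA0 _).trans ?_)
    have h5 := hB' _ _ hB0 hB1
    rw [hdif] at h5
    have h6 := h5.trans (ENNReal.ofReal_le_ofReal key1)
    refine (mul_le_mul_right h6 _).trans ?_
    rw [← ENNReal.ofReal_mul (by positivity)]
    apply ENNReal.ofReal_le_ofReal
    have e : A⁻¹ * (3 * C * (r * A) / (M * Real.log 2 / 2)) = (6 * C / Real.log 2) * r / M := by
      field_simp
      ring
    rw [e]
    apply div_le_div_of_nonneg_right _ (by positivity)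
    apply mul_le_mul_of_nonneg_right _ hr.le
    have : 0 < 12 * C ^ 2 / Real.log 2 ^ 2 := by positivity
    linarith

end Pool.Agent.D0H9.GO
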